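import Pool.Agent.Y896.SH.Stm

/-!
# SH-NP: the sup norm on a plane of analytic functions which vanish at infinity is not Euclidean
(helper171, after the starting file `Results/MP_981724_an/NoComplexSubspace.lean`)
-/

set_option autoImplicit false

open Filter Topology Set

namespace Pool.Agent.Y171.SH

open Pool.Agent.Y896.SH

/-- vanishing at infinity -/
def Van (u : ℕ × ℝ → ℝ) : Prop :=
  ∀ ε : ℝ, 0 < ε → ∃ R : ℕ, ∀ n t, (R ≤ n ∨ (R : ℝ) ≤ |t|) → |u (n, t)| ≤ ε

lemma Van.lin {u v : ℕ × ℝ → ℝ} (hu : Van u) (hv : Van v) (a b : ℝ) :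
    Van (fun p => a * u p + b * v p) := by
  intro ε hε
  set M : ℝ := |a| + |b| + 1 with hM
  have hM0 : 0 < M := by positivity
  obtain ⟨R₁, h₁⟩ := hu (ε / (2 * M)) (by positivity)
  obtain ⟨R₂, h₂⟩ := hv (ε / (2 * M)) (by positivity)
  refine ⟨max R₁ R₂, fun n t hnt => ?_⟩
  have e1 : |u (n, t)| ≤ ε / (2 * M) := h₁ n t (by
    rcases hnt with h | h
    · exact Or.inl (le_trans (le_max_left _ _) h)
    · refine Or.inr (le_trans ?_ h)
      exact_mod_cast le_max_left R₁ R₂)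
  have e2 : |v (n, t)| ≤ ε / (2 * M) := h₂ n t (by
    rcases hnt with h | h
    · exact Or.inl (le_trans (le_max_right _ _) h)
    · refine Or.inr (le_trans ?_ h)
      exact_mod_cast le_max_right R₁ R₂)
  have e3 : |a| * |u (n, t)| ≤ M * (ε / (2 * M)) :=
    mul_le_mul (by rw [hM]; linarith [abs_nonneg b]) e1 (abs_nonneg _) hM0.le
  have e4 : |b| * |v (n, t)| ≤ M * (ε / (2 * M)) :=
    mul_le_mul (by rw [hM]; linarith [abs_nonneg a]) e2 (abs_nonneg _) hM0.le
  have e5 : M * (ε / (2 * M)) = ε / 2 := by field_simp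
  calc |a * u (n, t) + b * v (n, t)| ≤ |a * u (n, t)| + |b * v (n, t)| := abs_add_le _ _
    _ = |a| * |u (n, t)| + |b| * |v (n, t)| := by rw [abs_mul, abs_mul]
    _ ≤ ε := by linarith

/-- attainment of the supremum -/
lemma attain {F : ℕ × ℝ → ℝ} (hc : Continuous F) (hF : Van F)
    (hl : IsLUB (range fun p => F p ^ 2) 1) : ∃ p, |F p| = 1 := by
  obtain ⟨R, hR⟩ := hF (1 / 2) (by norm_num)
  set K : Set (ℕ × ℝ) := (Iic R) ×ˢ (Icc (-(R : ℝ)) R) with hK
  have hKc : IsCompact K := (Set.finite_Iic R).isCompact.prod isCompact_Icc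
  have hKn : K.Nonempty := ⟨(0, 0), by simp [hK]⟩
  obtain ⟨p, hp, hmax⟩ := hKc.exists_isMaxOn hKn (f := fun p => F p ^ 2)
    (hc.pow 2).continuousOn
  refine ⟨p, ?_⟩
  have h1 : F p ^ 2 ≤ 1 := hl.1 ⟨p, rfl⟩
  have h2 : 1 ≤ max (1 / 4) (F p ^ 2) := by
    apply hl.2
    rintro _ ⟨q, rfl⟩
    by_cases hq : q ∈ K
    · exact le_max_of_le_right (hmax hq)
    · refine le_max_of_le_left ?_
      have h3 : |F q| ≤ 1 / 2 := by
        refine hR q.1 q.2 ?_
        by_contra hcon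
        push Not at hcon
        apply hq
        refine ⟨hcon.1.le, ?_⟩
        have := abs_lt.1 hcon.2
        exact ⟨this.1.le, this.2.le⟩
      have h4 := abs_le.1 h3
      show F q ^ 2 ≤ 1 / 4
      nlinarith
  have h3 : F p ^ 2 = 1 := by
    rcases le_max_iff.1 h2 with h | h
    · norm_num at h
    · exact le_antisymm h1 h
  have h4 : |F p| ^ 2 = 1 := by rw [sq_abs]; exact h3
  exact (pow_eq_one_iff_of_nonneg (abs_nonneg _) two_ne_zero).1 h4

lemma core {u v : ℕ × ℝ → ℝ} (hua : ∀ n t, AnalyticAt ℝ (fun s => u (n, s)) t)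
    (hva : ∀ n t, AnalyticAt ℝ (fun s => v (n, s)) t) (hu : Van u) (hv : Van v)
    (h : ∀ a b : ℝ, IsLUB (range fun p => (a * u p + b * v p) ^ 2) (a ^ 2 + b ^ 2)) :
    False := by
  have huc : Continuous u := continuous_prod_of_discrete_left.2 fun n =>
    continuous_iff_continuousAt.2 fun t => (hua n t).continuousAt
  have hvc : Continuous v := continuous_prod_of_discrete_left.2 fun n =>
    continuous_iff_continuousAt.2 fun t => (hva n t).continuousAt
  have hle : ∀ p, u p ^ 2 + v p ^ 2 ≤ 1 := by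
    intro p
    have h1 : (u p * u p + v p * v p) ^ 2 ≤ u p ^ 2 + v p ^ 2 := (h (u p) (v p)).1 ⟨p, rfl⟩
    have h2 : u p * u p + v p * v p = u p ^ 2 + v p ^ 2 := by ring
    rw [h2] at h1
    by_contra hcon
    push Not at hcon
    nlinarith
  obtain ⟨R₁, hR₁⟩ := hu (1 / 2) (by norm_num)
  obtain ⟨R₂, hR₂⟩ := hv (1 / 2) (by norm_num)
  set R := max R₁ R₂ with hR
  have hfar : ∀ n t, (R ≤ n ∨ (R : ℝ) ≤ |t|) → u (n, t) ^ 2 + v (n, t) ^ 2 ≠ 1 := by
    intro n t hnt
    have e1 : |u (n, t)| ≤ 1 / 2 := hR₁ n t (by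
      rcases hnt with h | h
      · exact Or.inl (le_trans (le_max_left _ _) h)
      · refine Or.inr (le_trans ?_ h)
        exact_mod_cast le_max_left R₁ R₂)
    have e2 : |v (n, t)| ≤ 1 / 2 := hR₂ n t (by
      rcases hnt with h | h
      · exact Or.inl (le_trans (le_max_right _ _) h)
      · refine Or.inr (le_trans ?_ h)
        exact_mod_cast le_max_right R₁ R₂)
    have e3 := abs_le.1 e1
    have e4 := abs_le.1 e2
    nlinarith
  have hfin : ∀ n, {t : ℝ | u (n, t) ^ 2 + v (n, t) ^ 2 = 1}.Finite := by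
    intro n
    by_contra hinf
    have hinf : {t : ℝ | u (n, t) ^ 2 + v (n, t) ^ 2 = 1}.Infinite := hinf
    have hsub : {t : ℝ | u (n, t) ^ 2 + v (n, t) ^ 2 = 1} ⊆ Icc (-(R : ℝ)) R := by
      intro t ht
      by_contra hcon
      refine hfar n t (Or.inr ?_) ht
      by_contra hlt
      push Not at hlt
      exact hcon ⟨(abs_lt.1 hlt).1.le, (abs_lt.1 hlt).2.le⟩
    obtain ⟨x, -, hx⟩ := hinf.exists_accPt_of_subset_isCompact isCompact_Icc hsub
    have han : AnalyticOnNhd ℝ (fun t => u (n, t) ^ 2 + v (n, t) ^ 2 - 1) univ := fun t _ =>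
      (((hua n t).pow 2).add ((hva n t).pow 2)).sub analyticAt_const
    have hfreq : ∃ᶠ t in 𝓝[≠] x, u (n, t) ^ 2 + v (n, t) ^ 2 - 1 = 0 := by
      have h1 := accPt_iff_frequently.1 hx
      rw [frequently_nhdsWithin_iff]
      refine h1.mono fun t ht => ⟨?_, ht.1⟩
      have h9 : u (n, t) ^ 2 + v (n, t) ^ 2 = 1 := ht.2
      linarith
    have h2 := han.eqOn_zero_of_preconnected_of_frequently_eq_zero isPreconnected_univ
      (mem_univ x) hfreq (mem_univ (R : ℝ))
    refine hfar n R (Or.inr (le_abs_self _)) ?_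
    simp only [Pi.zero_apply] at h2
    linarith
  set A : Set (ℕ × ℝ) := {p | u p ^ 2 + v p ^ 2 = 1} with hA
  have hAfin : A.Finite := by
    have h1 : A ⊆ ⋃ n ∈ Finset.range R, (fun t : ℝ => (n, t)) ''
        {t : ℝ | u (n, t) ^ 2 + v (n, t) ^ 2 = 1} := by
      rintro ⟨n, t⟩ hp
      have hn : n < R := by
        by_contra hcon
        push Not at hcon
        exact hfar n t (Or.inl hcon) hp
      refine mem_iUnion₂.2 ⟨n, Finset.mem_range.2 hn, ⟨t, hp, rfl⟩⟩
    refine Set.Finite.subset ?_ h1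
    exact Set.Finite.biUnion (Finset.finite_toSet _) fun n _ => (hfin n).image _
  -- for each angle there is a point
  have hpt : ∀ θ : ℝ, ∃ p ∈ A, ∃ c : ℝ, (c = 1 ∨ c = -1) ∧ u p = c * Real.cos θ ∧
      v p = c * Real.sin θ := by
    intro θ
    have h1 := h (Real.cos θ) (Real.sin θ)
    rw [Real.cos_sq_add_sin_sq] at h1
    obtain ⟨p, hp⟩ := attain (F := fun p => Real.cos θ * u p + Real.sin θ * v p)
      (by fun_prop) (hu.lin hv _ _) h1
    have hp' : |Real.cos θ * u p + Real.sin θ * v p| = 1 := hp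
    have hcs := Real.cos_sq_add_sin_sq θ
    have key : ∀ c : ℝ, (c = 1 ∨ c = -1) → c * (Real.cos θ * u p + Real.sin θ * v p) = 1 →
        u p = c * Real.cos θ ∧ v p = c * Real.sin θ := by
      intro c hc hc1
      have hc2 : c ^ 2 = 1 := by rcases hc with rfl | rfl <;> norm_num
      have h3 : (u p - c * Real.cos θ) ^ 2 + (v p - c * Real.sin θ) ^ 2 ≤ 0 := by
        have h4 := hle p
        have h5 : (u p - c * Real.cos θ) ^ 2 + (v p - c * Real.sin θ) ^ 2 =
            (u p ^ 2 + v p ^ 2) - 2 * (c * (Real.cos θ * u p + Real.sin θ * v p)) +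
              c ^ 2 * (Real.cos θ ^ 2 + Real.sin θ ^ 2) := by ring
        rw [h5, hc1, hc2, hcs]
        linarith
      have h6 : (u p - c * Real.cos θ) ^ 2 = 0 := by
        nlinarith [sq_nonneg (u p - c * Real.cos θ), sq_nonneg (v p - c * Real.sin θ)]
      have h7 : (v p - c * Real.sin θ) ^ 2 = 0 := by
        nlinarith [sq_nonneg (u p - c * Real.cos θ), sq_nonneg (v p - c * Real.sin θ)]
      exact ⟨by linarith [pow_eq_zero_iff (two_ne_zero) |>.1 h6],
        by linarith [pow_eq_zero_iff (two_ne_zero) |>.1 h7]⟩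
    have hex : ∃ c : ℝ, (c = 1 ∨ c = -1) ∧ u p = c * Real.cos θ ∧ v p = c * Real.sin θ := by
      rcases (abs_eq zero_le_one).1 hp' with h3 | h3
      · exact ⟨1, Or.inl rfl, key 1 (Or.inl rfl) (by linarith)⟩
      · exact ⟨-1, Or.inr rfl, key (-1) (Or.inr rfl) (by linarith)⟩
    obtain ⟨c, hc, h4, h5⟩ := hex
    refine ⟨p, ?_, c, hc, h4, h5⟩
    have hc2 : c ^ 2 = 1 := by rcases hc with rfl | rfl <;> norm_num
    show u p ^ 2 + v p ^ 2 = 1
    rw [h4, h5]
    calc (c * Real.cos θ) ^ 2 + (c * Real.sin θ) ^ 2 =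
          c ^ 2 * (Real.cos θ ^ 2 + Real.sin θ ^ 2) := by ring
      _ = 1 := by rw [hc2, hcs, one_mul]
  choose q hqA c hc hqc hqs using hpt
  -- injectivity on `(0, π)`
  have hinj : InjOn q (Ioo 0 Real.pi) := by
    intro θ hθ φ hφ hq
    have h1 : c θ * Real.cos θ = c φ * Real.cos φ := by rw [← hqc, ← hqc, hq]
    have h2 : c θ * Real.sin θ = c φ * Real.sin φ := by rw [← hqs, ← hqs, hq]
    have h3 := Real.sin_pos_of_mem_Ioo hθ
    have h4 := Real.sin_pos_of_mem_Ioo hφ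
    have h5 : c θ = c φ := by
      rcases hc θ with h | h <;> rcases hc φ with h' | h' <;> rw [h, h'] at h2 ⊢ <;> nlinarith
    have h6 : Real.cos θ = Real.cos φ := by
      rw [h5] at h1
      rcases hc φ with h | h <;> rw [h] at h1 <;> linarith
    exact Real.injOn_cos ⟨hθ.1.le, hθ.2.le⟩ ⟨hφ.1.le, hφ.2.le⟩ h6
  have hinf : (Ioo 0 Real.pi).Infinite := Ioo_infinite Real.pi_pos
  exact hinf ((hAfin.subset (image_subset_iff.2 fun θ _ => hqA θ :
    q '' Ioo 0 Real.pi ⊆ A)).of_finite_image hinj)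

theorem t_NP : S_NP := by
  intro f g A B C hfa hga hf hg hind h
  have hnn : ∀ a b : ℝ, 0 ≤ A * a ^ 2 + 2 * B * a * b + C * b ^ 2 := fun a b =>
    (sq_nonneg _).trans ((h a b).1 ⟨(0, 0), rfl⟩)
  have hz : ∀ a b : ℝ, A * a ^ 2 + 2 * B * a * b + C * b ^ 2 = 0 → a = 0 ∧ b = 0 := by
    intro a b hab
    apply hind
    intro p
    have h1 : (a * f p + b * g p) ^ 2 ≤ A * a ^ 2 + 2 * B * a * b + C * b ^ 2 :=
      (h a b).1 ⟨p, rfl⟩
    rw [hab] at h1
    exact pow_eq_zero_iff two_ne_zero |>.1 (le_antisymm h1 (sq_nonneg _))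
  have hA : 0 < A := by
    have h1 := hnn 1 0
    have h2 := hz 1 0
    simp only [one_pow, mul_one, mul_zero, add_zero, ne_eq, OfNat.ofNat_ne_zero,
      not_false_eq_true, zero_pow] at h1 h2
    rcases h1.lt_or_eq with h3 | h3
    · exact h3
    · exact absurd (h2 h3.symm).1 one_ne_zero
  have hD : 0 < A * C - B ^ 2 := by
    have h1 := hnn B (-A)
    have h2 := hz B (-A)
    have e : A * B ^ 2 + 2 * B * B * (-A) + C * (-A) ^ 2 = A * (A * C - B ^ 2) := by ring
    rw [e] at h1 h2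
    by_contra hcon
    push Not at hcon
    have h3 : A * (A * C - B ^ 2) ≤ 0 := mul_nonpos_of_nonneg_of_nonpos hA.le hcon
    have h4 := (h2 (le_antisymm h3 h1)).2
    linarith
  obtain ⟨al, hal, hal2⟩ : ∃ al : ℝ, 0 < al ∧ al ^ 2 = A := ⟨√A, Real.sqrt_pos.2 hA,
    Real.sq_sqrt hA.le⟩
  set be : ℝ := B / al with hbe
  have hbe2 : al * be = B := by rw [hbe]; field_simp
  have hC : 0 < C - be ^ 2 := by
    have e : C - be ^ 2 = (A * C - B ^ 2) / A := by
      rw [← hal2, ← hbe2]; field_simp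
    rw [e]
    positivity
  obtain ⟨ga, hga0, hga2⟩ : ∃ ga : ℝ, 0 < ga ∧ ga ^ 2 = C - be ^ 2 :=
    ⟨√(C - be ^ 2), Real.sqrt_pos.2 hC, Real.sq_sqrt hC.le⟩
  set f' : ℕ × ℝ → ℝ := fun p => (1 / al) * f p + 0 * g p with hf'
  set g' : ℕ × ℝ → ℝ := fun p => (-(be / (al * ga))) * f p + (1 / ga) * g p with hg'
  refine core (u := f') (v := g') ?_ ?_ (Van.lin hf hg _ _) (Van.lin hf hg _ _) ?_
  · intro n t
    exact (analyticAt_const.mul (hfa n t)).add (analyticAt_const.mul (hga n t))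
  · intro n t
    exact (analyticAt_const.mul (hfa n t)).add (analyticAt_const.mul (hga n t))
  · intro a b
    have h1 := h (a / al - b * be / (al * ga)) (b / ga)
    have e1 : (fun p => ((a / al - b * be / (al * ga)) * f p + b / ga * g p) ^ 2) =
        fun p => (a * f' p + b * g' p) ^ 2 := by
      funext p
      simp only [hf', hg']
      congr 1
      ring
    have e2 : A * (a / al - b * be / (al * ga)) ^ 2 +
        2 * B * (a / al - b * be / (al * ga)) * (b / ga) + C * (b / ga) ^ 2 = a ^ 2 + b ^ 2 := by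
      have e3 : C = ga ^ 2 + be ^ 2 := by rw [hga2]; ring
      rw [← hal2, ← hbe2, e3]
      field_simp
      ring
    rw [e1, e2] at h1
    exact h1

end Pool.Agent.Y171.SH
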